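import Pool.Agent.helper78.WB.SpecIII

set_option autoImplicit false

namespace Pool.Agent.WB

open MvPolynomial

namespace PIGWaux

/-- exponent vector -/
noncomputable def M (i j k : ℕ) : Fin 3 →₀ ℕ :=
  Finsupp.single 0 i + Finsupp.single 1 j + Finsupp.single 2 k

theorem M0 (i j k : ℕ) : M i j k 0 = i := by simp [M]
theorem M1 (i j k : ℕ) : M i j k 1 = j := by simp [M]
theorem M2 (i j k : ℕ) : M i j k 2 = k := by simp [M]

theorem M_degree (i j k : ℕ) : (M i j k).degree = i + j + k := by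
  simp [M, Finsupp.degree_eq_sum, Fin.sum_univ_three]

theorem eval_M (ζ : V3) (i j k : ℕ) (c : ℤ) :
    eval ζ (monomial (M i j k) c) = c * (ζ 0 ^ i * ζ 1 ^ j * ζ 2 ^ k) := by
  rw [eval_monomial, Finsupp.prod_fintype _ _ (fun i => pow_zero _), Fin.prod_univ_three, M0, M1,
    M2]

/-- the forms `A + w B` -/
noncomputable def Q (n : ℕ) (a : Fin (n + 1) → ℤ) (b : Fin n → ℤ) : MvPolynomial (Fin 3) ℤ :=
  ∑ i : Fin (n + 1), monomial (M i (n - i) 0) (a i) +
    ∑ i : Fin n, monomial (M i (n - 1 - i) 1) (b i)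

theorem Q_sub (n : ℕ) (a a' : Fin (n + 1) → ℤ) (b b' : Fin n → ℤ) :
    Q n a b - Q n a' b' = Q n (fun i => a i - a' i) (fun i => b i - b' i) := by
  unfold Q
  simp only [map_sub, Finset.sum_sub_distrib]
  ring

theorem coeff_a (n : ℕ) (a : Fin (n + 1) → ℤ) (b : Fin n → ℤ) (j : Fin (n + 1)) :
    coeff (M j (n - j) 0) (Q n a b) = a j := by
  unfold Q
  rw [coeff_add, coeff_sum, coeff_sum]
  have h1 : ∑ i : Fin (n + 1), coeff (M j (n - j) 0) (monomial (M i (n - i) 0) (a i)) = a j := by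
    rw [Finset.sum_eq_single j]
    · rw [coeff_monomial, if_pos rfl]
    · intro i _ hij
      rw [coeff_monomial, if_neg]
      intro h
      apply hij
      have := congrArg (fun f : Fin 3 →₀ ℕ => f 0) h
      simp only [M0] at this
      exact Fin.ext this
    · intro h
      exact absurd (Finset.mem_univ j) h
  have h2 : ∑ i : Fin n, coeff (M j (n - j) 0) (monomial (M i (n - 1 - i) 1) (b i)) = 0 := by
    refine Finset.sum_eq_zero fun i _ => ?_
    rw [coeff_monomial, if_neg]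
    intro h
    have := congrArg (fun f : Fin 3 →₀ ℕ => f 2) h
    simp only [M2] at this
    omega
  rw [h1, h2, add_zero]

theorem coeff_b (n : ℕ) (a : Fin (n + 1) → ℤ) (b : Fin n → ℤ) (j : Fin n) :
    coeff (M j (n - 1 - j) 1) (Q n a b) = b j := by
  unfold Q
  rw [coeff_add, coeff_sum, coeff_sum]
  have h1 : ∑ i : Fin (n + 1), coeff (M j (n - 1 - j) 1) (monomial (M i (n - i) 0) (a i)) = 0 := by
    refine Finset.sum_eq_zero fun i _ => ?_
    rw [coeff_monomial, if_neg]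
    intro h
    have := congrArg (fun f : Fin 3 →₀ ℕ => f 2) h
    simp only [M2] at this
    omega
  have h2 : ∑ i : Fin n, coeff (M j (n - 1 - j) 1) (monomial (M i (n - 1 - i) 1) (b i)) =
      b j := by
    rw [Finset.sum_eq_single j]
    · rw [coeff_monomial, if_pos rfl]
    · intro i _ hij
      rw [coeff_monomial, if_neg]
      intro h
      apply hij
      have := congrArg (fun f : Fin 3 →₀ ℕ => f 0) h
      simp only [M0] at this
      exact Fin.ext this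
    · intro h
      exact absurd (Finset.mem_univ j) h
  rw [h1, h2, zero_add]

theorem Q_hom (n : ℕ) (hn : 1 ≤ n) (a : Fin (n + 1) → ℤ) (b : Fin n → ℤ) :
    (Q n a b).IsHomogeneous n := by
  unfold Q
  refine IsHomogeneous.add ?_ ?_
  · refine IsHomogeneous.sum _ _ _ fun i _ => ?_
    refine isHomogeneous_monomial _ ?_
    rw [M_degree]
    have := i.2
    omega
  · refine IsHomogeneous.sum _ _ _ fun i _ => ?_
    refine isHomogeneous_monomial _ ?_
    rw [M_degree]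
    have := i.2
    omega

theorem Q_deg (n : ℕ) (a : Fin (n + 1) → ℤ) (b : Fin n → ℤ) :
    degreeOf 2 (Q n a b) ≤ 1 := by
  rw [degreeOf_le_iff]
  intro m hm
  by_contra hcon
  rw [mem_support_iff] at hm
  apply hm
  unfold Q
  rw [coeff_add, coeff_sum, coeff_sum]
  rw [Finset.sum_eq_zero, Finset.sum_eq_zero, add_zero]
  · intro i _
    rw [coeff_monomial, if_neg]
    intro h
    apply hcon
    rw [← h, M2]
  · intro i _
    rw [coeff_monomial, if_neg]
    intro h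
    apply hcon
    rw [← h, M2]
    exact Nat.zero_le 1

theorem Q_eval (n : ℕ) (a : Fin (n + 1) → ℤ) (b : Fin n → ℤ) (ζ : V3) :
    eval ζ (Q n a b) = ∑ i : Fin (n + 1), a i * (ζ 0 ^ (i : ℕ) * ζ 1 ^ (n - (i : ℕ)) * ζ 2 ^ 0) +
      ∑ i : Fin n, b i * (ζ 0 ^ (i : ℕ) * ζ 1 ^ (n - 1 - (i : ℕ)) * ζ 2 ^ 1) := by
  unfold Q
  rw [map_add, map_sum, map_sum]
  simp only [eval_M]

theorem Q_bound (n H₁ H₂ : ℕ) (hn : 1 ≤ n) (a : Fin (n + 1) → ℤ) (b : Fin n → ℤ)
    (ha : ∀ i, |a i| ≤ (H₁ : ℤ)) (hb : ∀ i, |b i| ≤ (H₂ : ℤ)) (ζ : V3) (X₀ N : ℕ)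
    (h0 : |ζ 0| ≤ (X₀ : ℤ)) (h1 : |ζ 1| ≤ (X₀ : ℤ)) (h2 : |ζ 2| ≤ (N : ℤ)) :
    |eval ζ (Q n a b)| ≤ ((n + 1) * H₁ * X₀ ^ n + n * H₂ * X₀ ^ (n - 1) * N : ℤ) := by
  rw [Q_eval]
  refine (abs_add_le _ _).trans (add_le_add ?_ ?_)
  · refine (Finset.abs_sum_le_sum_abs _ _).trans ?_
    have h : ∀ i ∈ (Finset.univ : Finset (Fin (n + 1))),
        |a i * (ζ 0 ^ (i : ℕ) * ζ 1 ^ (n - (i : ℕ)) * ζ 2 ^ 0)| ≤ (H₁ : ℤ) * (X₀ : ℤ) ^ n := by
      intro i _
      rw [pow_zero, mul_one, abs_mul, abs_mul, abs_pow, abs_pow]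
      have e : (X₀ : ℤ) ^ n = (X₀ : ℤ) ^ (i : ℕ) * (X₀ : ℤ) ^ (n - (i : ℕ)) := by
        rw [← pow_add]
        congr 1
        have := i.2
        omega
      rw [e]
      refine mul_le_mul (ha i) ?_ (by positivity) (by positivity)
      exact mul_le_mul (pow_le_pow_left₀ (abs_nonneg _) h0 _)
        (pow_le_pow_left₀ (abs_nonneg _) h1 _) (by positivity) (by positivity)
    refine (Finset.sum_le_card_nsmul _ _ _ h).trans (le_of_eq ?_)
    rw [Finset.card_univ, Fintype.card_fin, nsmul_eq_mul]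
    push_cast
    ring
  · refine (Finset.abs_sum_le_sum_abs _ _).trans ?_
    have h : ∀ i ∈ (Finset.univ : Finset (Fin n)),
        |b i * (ζ 0 ^ (i : ℕ) * ζ 1 ^ (n - 1 - (i : ℕ)) * ζ 2 ^ 1)| ≤
          (H₂ : ℤ) * ((X₀ : ℤ) ^ (n - 1) * (N : ℤ)) := by
      intro i _
      rw [pow_one, abs_mul, abs_mul, abs_mul, abs_pow, abs_pow]
      have e : (X₀ : ℤ) ^ (n - 1) = (X₀ : ℤ) ^ (i : ℕ) * (X₀ : ℤ) ^ (n - 1 - (i : ℕ)) := by
        rw [← pow_add]
        congr 1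
        have := i.2
        omega
      rw [e]
      refine mul_le_mul (hb i) ?_ (by positivity) (by positivity)
      refine mul_le_mul ?_ h2 (abs_nonneg _) (by positivity)
      exact mul_le_mul (pow_le_pow_left₀ (abs_nonneg _) h0 _)
        (pow_le_pow_left₀ (abs_nonneg _) h1 _) (by positivity) (by positivity)
    refine (Finset.sum_le_card_nsmul _ _ _ h).trans (le_of_eq ?_)
    rw [Finset.card_univ, Fintype.card_fin, nsmul_eq_mul]
    ring

theorem fin_sub_le (H : ℕ) (u v : Fin (H + 1)) : |((u : ℕ) : ℤ) - ((v : ℕ) : ℤ)| ≤ (H : ℤ) := by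
  have h1 := u.2
  have h2 := v.2
  rw [abs_le]
  constructor <;> omega

/-- Pairs of digit vectors. -/
abbrev PairT (n H₁ H₂ : ℕ) : Type := (Fin (n + 1) → Fin (H₁ + 1)) × (Fin n → Fin (H₂ + 1))

end PIGWaux

open PIGWaux in
theorem PIGW : PIGW_stmt := by
  intro n q H₁ H₂ C hq hn hlt
  haveI : NeZero q := ⟨hq.ne'⟩
  classical
  have hPc : Fintype.card (PairT n H₁ H₂) = (H₁ + 1) ^ (n + 1) * (H₂ + 1) ^ n := by
    simp [PairT]
  let F : PairT n H₁ H₂ → (C → ZMod q) := fun x ζ =>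
    ((eval ζ.1 (Q n (fun i => ((x.1 i : ℕ) : ℤ)) (fun i => ((x.2 i : ℕ) : ℤ))) : ℤ) : ZMod q)
  have hfin : (valSet n q C).Finite := Set.toFinite _
  have hmem : ∀ x : PairT n H₁ H₂, F x ∈ valSet n q C := fun x => ⟨_, Q_hom n hn _ _, fun ζ => rfl⟩
  have hcard : hfin.toFinset.card < (Finset.univ : Finset (PairT n H₁ H₂)).card := by
    rw [← Set.ncard_eq_toFinset_card _ hfin, Finset.card_univ]
    exact lt_of_lt_of_le hlt (le_of_eq hPc.symm)
  obtain ⟨x, -, y, -, hxy, hF⟩ := Finset.exists_ne_map_eq_of_card_lt_of_maps_to hcard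
    (f := F) (fun x _ => by
      rw [Finset.mem_coe, Set.Finite.mem_toFinset]
      exact hmem x)
  have hsub := Q_sub n (fun i => ((x.1 i : ℕ) : ℤ)) (fun i => ((y.1 i : ℕ) : ℤ))
    (fun i => ((x.2 i : ℕ) : ℤ)) (fun i => ((y.2 i : ℕ) : ℤ))
  refine ⟨Q n (fun i => ((x.1 i : ℕ) : ℤ) - ((y.1 i : ℕ) : ℤ))
    (fun i => ((x.2 i : ℕ) : ℤ) - ((y.2 i : ℕ) : ℤ)), ?_, Q_hom n hn _ _, Q_deg n _ _, ?_, ?_⟩
  · intro h0
    apply hxy
    refine Prod.ext (funext fun i => ?_) (funext fun i => ?_)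
    · have h := coeff_a n (fun i => ((x.1 i : ℕ) : ℤ) - ((y.1 i : ℕ) : ℤ))
        (fun i => ((x.2 i : ℕ) : ℤ) - ((y.2 i : ℕ) : ℤ)) i
      rw [h0, coeff_zero] at h
      apply Fin.ext
      omega
    · have h := coeff_b n (fun i => ((x.1 i : ℕ) : ℤ) - ((y.1 i : ℕ) : ℤ))
        (fun i => ((x.2 i : ℕ) : ℤ) - ((y.2 i : ℕ) : ℤ)) i
      rw [h0, coeff_zero] at h
      apply Fin.ext
      omega
  · intro ζ hζ
    rw [← hsub, map_sub, ← ZMod.intCast_zmod_eq_zero_iff_dvd, Int.cast_sub, sub_eq_zero]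
    exact congrFun hF ⟨ζ, hζ⟩
  · intro ζ X₀ N h0 h1 h2
    exact Q_bound n H₁ H₂ hn _ _ (fun i => fin_sub_le H₁ _ _) (fun i => fin_sub_le H₂ _ _) ζ X₀ N
      h0 h1 h2

end Pool.Agent.WB
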